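import Pool.Agent.H801.Ecc.Main

/-!
# GlobalECC has no constant-factor single-criteria approximation, under the small set expansion
hypothesis
-/

namespace Pool.Agent.Results.MP_dc7e63_lc.GlobalNoConstant

open Pool.Agent.NPC Pool.Agent.H801.Ecc

/-- A polynomial-time constant-factor approximation algorithm for GlobalECC that respects the
budget, even only on hypergraphs with two colours, would solve, for some `η > 0` and all `δ`, the
gap problem for small set expansion with parameters `η` and `δ` in polynomial time.  Hence, under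
the small set expansion hypothesis, no such algorithm exists, whatever the constant. -/
theorem result :
    (∀ (α : ℝ) (F : List Bool → List Bool), PolyTime F → Approx2 GlobalFeasible α F →
      ∃ η : ℝ, 0 < η ∧ ∀ δ : ℝ, SSEInP η δ) ∧
    (SSEH → ¬ ∃ (α : ℝ) (F : List Bool → List Bool), PolyTime F ∧
      Approx2 GlobalFeasible α F) := by
  have h1 : ∀ (α : ℝ) (F : List Bool → List Bool), PolyTime F → Approx2 GlobalFeasible α F →
      ∃ η : ℝ, 0 < η ∧ ∀ δ : ℝ, SSEInP η δ := fun α F hFP hF =>
    sse_of_approx (fun _ _ h => h.thin) (fun h => asgOf_global h) hFP hF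
  refine ⟨h1, ?_⟩
  rintro hS ⟨α, F, hFP, hF⟩
  obtain ⟨η, hη, h⟩ := h1 α F hFP hF
  obtain ⟨δ, _, hδ⟩ := hS η hη
  exact hδ (h δ)

end Pool.Agent.Results.MP_dc7e63_lc.GlobalNoConstant
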